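import Pool.Agent.Q32.RD.Stm
set_option autoImplicit false
set_option linter.all false

/-!
# Project RD of helper32, job RED: reduction to small modules
-/

namespace Q150.RD

universe u

open Cardinal Q32.RD

section

variable {V : Type u} [CommRing V] {X : Type u} [AddCommGroup X] [Module V X]

/-- factorisation through a surjective map -/
theorem factor {M P Q : Type u} [AddCommGroup M] [Module V M] [AddCommGroup P] [Module V P] [AddCommGroup Q]
    [Module V Q] (π : M →ₗ[V] P) (g : M →ₗ[V] Q) (hπ : Function.Surjective π)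
    (h : ∀ x, π x = 0 → g x = 0) : ∃ f : P →ₗ[V] Q, ∀ x, f (π x) = g x := by
  refine ⟨(Submodule.liftQ (LinearMap.ker π) g (fun x hx => h x hx)).comp
    (LinearMap.quotKerEquivOfSurjective π hπ).symm.toLinearMap, fun x => ?_⟩
  have e : (LinearMap.quotKerEquivOfSurjective π hπ).symm (π x) = Submodule.Quotient.mk x := by
    rw [LinearEquiv.symm_apply_eq]
    rfl
  rw [LinearMap.comp_apply, LinearEquiv.coe_toLinearMap, e]
  rfl

/-- `EP` for the quotient of a closed submodule by a closed submodule -/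
theorem ep_quot (e : V) (s : X →ₗ[V] (X →₀ V))
    (hs : ∀ x, Finsupp.linearCombination V (id : X → X) (s x) = e • x) (D Z : Submodule V X)
    (hD : ∀ x ∈ D, ∀ y ∈ (s x).support, y ∈ D) (hZ : ∀ x ∈ Z, ∀ y ∈ (s x).support, y ∈ Z) :
    EP e (Z ⧸ D.submoduleOf Z) := by
  classical
  let k : X → Z ⧸ D.submoduleOf Z := fun x => if h : x ∈ Z then Submodule.Quotient.mk ⟨x, h⟩ else 0
  have hk : ∀ x (h : x ∈ Z), k x = Submodule.Quotient.mk ⟨x, h⟩ := fun x h => dif_pos h
  have hk0 : ∀ x, x ∈ Z → x ∈ D → k x = 0 := by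
    intro x h h'
    rw [hk x h, Submodule.Quotient.mk_eq_zero]
    exact h'
  let F : (X →₀ V) →ₗ[V] ((Z ⧸ D.submoduleOf Z) →₀ V) :=
    Finsupp.linearCombination V (fun x => if k x = 0 then 0 else Finsupp.single (k x) 1)
  have hF0 : ∀ c : X →₀ V, (∀ y ∈ c.support, y ∈ Z) → (∀ y ∈ c.support, y ∈ D) → F c = 0 := by
    intro c h1 h2
    show Finsupp.linearCombination V _ c = 0
    rw [Finsupp.linearCombination_apply, Finsupp.sum]
    refine Finset.sum_eq_zero fun y hy => ?_
    rw [if_pos (hk0 y (h1 y hy) (h2 y hy)), smul_zero]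
  have hlcF : ∀ c : X →₀ V, Finsupp.linearCombination V
      (id : (Z ⧸ D.submoduleOf Z) → (Z ⧸ D.submoduleOf Z)) (F c) = Finsupp.linearCombination V k c := by
    intro c
    show Finsupp.linearCombination V _ (Finsupp.linearCombination V _ c) = _
    rw [Finsupp.linearCombination_apply V c, Finsupp.linearCombination_apply V c, Finsupp.sum, Finsupp.sum, map_sum]
    refine Finset.sum_congr rfl fun y _ => ?_
    rw [map_smul]
    congr 1
    split_ifs with h
    · rw [map_zero, h]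
    · rw [Finsupp.linearCombination_single, one_smul]
      rfl
  have hmk : ∀ (c : X →₀ V) (hc : ∀ y ∈ c.support, y ∈ Z)
      (hm : Finsupp.linearCombination V (id : X → X) c ∈ Z),
      Finsupp.linearCombination V k c = Submodule.Quotient.mk ⟨Finsupp.linearCombination V (id : X → X) c, hm⟩ := by
    intro c hc hm
    have h1 : Finsupp.linearCombination V k c = ∑ y ∈ c.support.attach,
        c y • (Submodule.Quotient.mk (p := D.submoduleOf Z) ⟨(y : X), hc y y.2⟩) := by
      rw [Finsupp.linearCombination_apply, Finsupp.sum, ← Finset.sum_attach]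
      refine Finset.sum_congr rfl fun y _ => ?_
      rw [hk y (hc y y.2)]
    have h2 : (⟨Finsupp.linearCombination V (id : X → X) c, hm⟩ : Z) =
        ∑ y ∈ c.support.attach, c y • (⟨(y : X), hc y y.2⟩ : Z) := by
      apply Subtype.ext
      show Finsupp.linearCombination V (id : X → X) c = ((∑ y ∈ c.support.attach, c y • (⟨(y : X), hc y y.2⟩ : Z) : Z) : X)
      rw [Finsupp.linearCombination_apply, Finsupp.sum, ← Finset.sum_attach, AddSubmonoidClass.coe_finsetSum]
      rfl
    rw [h1, h2]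
    have h3 := map_sum (D.submoduleOf Z).mkQ (fun y : c.support => c y • (⟨(y : X), hc y y.2⟩ : Z)) c.support.attach
    refine Eq.trans ?_ h3.symm
    rfl
  let sb : (Z ⧸ D.submoduleOf Z) →ₗ[V] ((Z ⧸ D.submoduleOf Z) →₀ V) :=
    Submodule.liftQ (D.submoduleOf Z) ((F.comp s).comp Z.subtype) (by
      intro z hz
      rw [LinearMap.mem_ker]
      exact hF0 (s (z : X)) (hZ z z.2) (hD z hz))
  refine ⟨sb, fun x => ?_⟩
  obtain ⟨z, rfl⟩ := Submodule.Quotient.mk_surjective _ x
  have h1 : sb (Submodule.Quotient.mk z) = F (s (z : X)) := rfl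
  rw [h1, hlcF]
  have hm : Finsupp.linearCombination V (id : X → X) (s (z : X)) ∈ Z := by
    rw [hs]
    exact Z.smul_mem _ z.2
  rw [hmk (s (z : X)) (hZ z z.2) hm]
  have h2 : (⟨Finsupp.linearCombination V (id : X → X) (s (z : X)), hm⟩ : Z) = e • z := by
    apply Subtype.ext
    exact hs z
  rw [h2]
  rfl

/-- the step of the extension -/
theorem ext_step {N E : Type u} [AddCommGroup N] [Module V N] [AddCommGroup E] [Module V E]
    (i : N →ₗ[V] E) (p : E →ₗ[V] X) (hi : Function.Injective i) (hp : Function.Surjective p)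
    (hex : LinearMap.range i = LinearMap.ker p) (D Z : Submodule V X) (σ : D →ₗ[V] E)
    (hσ : ∀ d, p (σ d) = d) (hspl : Spl V (Z ⧸ D.submoduleOf Z) N) :
    ∃ τ : Z →ₗ[V] E, (∀ z, p (τ z) = z) ∧ ∀ (z : Z) (hz : (z : X) ∈ D), τ z = σ ⟨z, hz⟩ := by
  have hpi : ∀ n, p (i n) = 0 := fun n => by
    have : i n ∈ LinearMap.ker p := hex ▸ LinearMap.mem_range_self i n
    exact this
  let EZ : Submodule V E := Z.comap p
  let K : Submodule V EZ :=
    { carrier := {w | ∃ hd : p (w : E) ∈ D, (w : E) = σ ⟨p (w : E), hd⟩}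
      zero_mem' := by
        refine ⟨?_, ?_⟩
        · show p 0 ∈ D
          rw [map_zero]
          exact D.zero_mem
        · have e : (⟨p ((0 : EZ) : E), by show p 0 ∈ D; rw [map_zero]; exact D.zero_mem⟩ : D) = 0 :=
            Subtype.ext (map_zero p)
          show (0 : E) = σ _
          rw [e, map_zero]
      add_mem' := by
        rintro a b ⟨ha, ha'⟩ ⟨hb, hb'⟩
        have hab : p ((a + b : EZ) : E) ∈ D := by
          show p ((a : E) + b) ∈ D
          rw [map_add]
          exact D.add_mem ha hb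
        refine ⟨hab, ?_⟩
        have e : (⟨p ((a + b : EZ) : E), hab⟩ : D) = ⟨p (a : E), ha⟩ + ⟨p (b : E), hb⟩ :=
          Subtype.ext (map_add p (a : E) b)
        rw [e, map_add, ← ha', ← hb']
        rfl
      smul_mem' := by
        rintro c a ⟨ha, ha'⟩
        have hca : p ((c • a : EZ) : E) ∈ D := by
          show p (c • (a : E)) ∈ D
          rw [map_smul]
          exact D.smul_mem c ha
        refine ⟨hca, ?_⟩
        have e : (⟨p ((c • a : EZ) : E), hca⟩ : D) = c • ⟨p (a : E), ha⟩ :=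
          Subtype.ext (map_smul p c (a : E))
        rw [e, map_smul, ← ha']
        rfl }
  have hK : ∀ w : EZ, w ∈ K ↔ ∃ hd : p (w : E) ∈ D, (w : E) = σ ⟨p (w : E), hd⟩ := fun w => Iff.rfl
  let iZ : N →ₗ[V] EZ := LinearMap.codRestrict EZ i (fun n => by
    show p (i n) ∈ Z
    rw [hpi]
    exact Z.zero_mem)
  let pZ : EZ →ₗ[V] Z := LinearMap.codRestrict Z (p.comp EZ.subtype) (fun w => w.2)
  have hpZ : Function.Surjective pZ := by
    intro z
    obtain ⟨w, hw⟩ := hp z
    refine ⟨⟨w, by show p w ∈ Z; rw [hw]; exact z.2⟩, Subtype.ext hw⟩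
  let i' : N →ₗ[V] (EZ ⧸ K) := K.mkQ.comp iZ
  let p' : (EZ ⧸ K) →ₗ[V] (Z ⧸ D.submoduleOf Z) :=
    Submodule.liftQ K ((D.submoduleOf Z).mkQ.comp pZ) (by
      intro w hw
      obtain ⟨hd, -⟩ := (hK w).1 hw
      rw [LinearMap.mem_ker]
      show Submodule.Quotient.mk (pZ w) = 0
      rw [Submodule.Quotient.mk_eq_zero]
      exact hd)
  have hmk0 : ∀ w : EZ, w ∈ K → K.mkQ w = 0 := by
    intro w hw
    rw [Submodule.mkQ_apply, Submodule.Quotient.mk_eq_zero]
    exact hw
  have hσ0 : ∀ h : (0 : X) ∈ D, σ ⟨0, h⟩ = 0 := by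
    intro h
    have : (⟨0, h⟩ : D) = 0 := rfl
    rw [this, map_zero]
  have hi' : Function.Injective i' := by
    rw [injective_iff_map_eq_zero]
    intro n hn
    have h1 : iZ n ∈ K := by
      rw [← Submodule.Quotient.mk_eq_zero (p := K)]
      exact hn
    obtain ⟨hd, h2⟩ := (hK _).1 h1
    have h3 : (iZ n : E) = i n := rfl
    have h4 : (⟨p (iZ n : E), hd⟩ : D) = 0 := Subtype.ext (hpi n)
    rw [h4, map_zero, h3] at h2
    exact hi (h2.trans (map_zero i).symm)
  have hp' : Function.Surjective p' := by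
    intro y
    obtain ⟨z, rfl⟩ := Submodule.Quotient.mk_surjective _ y
    obtain ⟨w, rfl⟩ := hpZ z
    exact ⟨K.mkQ w, rfl⟩
  have hex' : LinearMap.range i' = LinearMap.ker p' := by
    apply le_antisymm
    · rintro _ ⟨n, rfl⟩
      rw [LinearMap.mem_ker]
      show Submodule.Quotient.mk (pZ (iZ n)) = 0
      rw [Submodule.Quotient.mk_eq_zero]
      show p (i n) ∈ D
      rw [hpi]
      exact D.zero_mem
    · intro y hy
      obtain ⟨w, rfl⟩ := Submodule.Quotient.mk_surjective _ y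
      rw [LinearMap.mem_ker] at hy
      have h1 : (Submodule.Quotient.mk (pZ w) : Z ⧸ D.submoduleOf Z) = 0 := hy
      rw [Submodule.Quotient.mk_eq_zero] at h1
      have hd : p (w : E) ∈ D := h1
      have h2 : (w : E) - σ ⟨p (w : E), hd⟩ ∈ LinearMap.range i := by
        rw [hex, LinearMap.mem_ker, map_sub, hσ, sub_self]
      obtain ⟨n, hn⟩ := h2
      refine ⟨n, ?_⟩
      show K.mkQ (iZ n) = K.mkQ w
      rw [← sub_eq_zero, ← map_sub]
      apply hmk0
      have hpw : p (((iZ n - w : EZ)) : E) = - p (w : E) := by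
        show p (i n - (w : E)) = - p (w : E)
        rw [map_sub, hpi, zero_sub]
      have hd2 : p (((iZ n - w : EZ)) : E) ∈ D := by
        rw [hpw]
        exact D.neg_mem hd
      refine (hK _).2 ⟨hd2, ?_⟩
      have h3 : (⟨p (((iZ n - w : EZ)) : E), hd2⟩ : D) = - ⟨p (w : E), hd⟩ := Subtype.ext hpw
      rw [h3, map_neg]
      show i n - (w : E) = - σ ⟨p (w : E), hd⟩
      rw [hn]
      abel
  obtain ⟨r, hr⟩ := hspl (EZ ⧸ K) i' p' hi' hp' hex'
  let ψ : EZ →ₗ[V] N := r.comp K.mkQ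
  let g : EZ →ₗ[V] E := EZ.subtype - i.comp ψ
  have hg : ∀ w : EZ, g w = (w : E) - i (ψ w) := fun w => rfl
  obtain ⟨τ, hτ⟩ := factor pZ g hpZ (by
    intro w hw
    have h1 : (w : E) ∈ LinearMap.range i := by
      rw [hex, LinearMap.mem_ker]
      exact congrArg Subtype.val hw
    obtain ⟨n, hn⟩ := h1
    have h2 : iZ n = w := Subtype.ext hn
    rw [hg, ← h2]
    have h3 : ψ (iZ n) = n := hr n
    rw [h3]
    exact sub_self _)
  refine ⟨τ, fun z => ?_, fun z hz => ?_⟩
  · obtain ⟨w, rfl⟩ := hpZ z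
    rw [hτ, hg, map_sub, hpi, sub_zero]
    rfl
  · have hwZ : p (σ ⟨z, hz⟩) ∈ Z := by
      rw [hσ]
      exact z.2
    obtain ⟨w, hw⟩ : ∃ w : EZ, w = ⟨σ ⟨z, hz⟩, hwZ⟩ := ⟨_, rfl⟩
    have h1 : pZ w = z := by
      rw [hw]
      exact Subtype.ext (hσ _)
    have h2 : w ∈ K := by
      have hd : p (w : E) ∈ D := by
        rw [hw]
        show p (σ ⟨z, hz⟩) ∈ D
        rw [hσ]
        exact hz
      refine (hK w).2 ⟨hd, ?_⟩
      have h3 : (⟨p (w : E), hd⟩ : D) = ⟨z, hz⟩ := by
        apply Subtype.ext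
        show p (w : E) = z
        rw [hw]
        exact hσ _
      rw [h3, hw]
    have h3 : ψ w = 0 := by
      show r (K.mkQ w) = 0
      rw [hmk0 w h2, map_zero]
    have h4 : τ z = g w := by rw [← hτ, h1]
    rw [h4, hg, h3, map_zero, sub_zero, hw]

/-- closed submodules -/
def Cls {I : Type u} (s : I → X →ₗ[V] (X →₀ V)) (N : Submodule V X) : Prop :=
  ∀ i, ∀ x ∈ N, ∀ y ∈ (s i x).support, y ∈ N

theorem cls_sup {I : Type u} {s : I → X →ₗ[V] (X →₀ V)} {D Z : Submodule V X} (hD : Cls s D) (hZ : Cls s Z) :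
    Cls s (D ⊔ Z) := by
  classical
  intro i x hx y hy
  obtain ⟨d, hd, z, hz, rfl⟩ := Submodule.mem_sup.1 hx
  rw [map_add] at hy
  have h1 := Finsupp.support_add hy
  rw [Finset.mem_union] at h1
  rcases h1 with h1 | h1
  · exact (le_sup_left : D ≤ D ⊔ Z) (hD i d hd y h1)
  · exact (le_sup_right : Z ≤ D ⊔ Z) (hZ i z hz y h1)

/-- the next set -/
def nx {I : Type u} (s : I → X →ₗ[V] (X →₀ V)) (T : Set X) : Set X :=
  (Submodule.span V T : Set X) ∪ ⋃ z : (Submodule.span V T) × I, ((s z.2 (z.1 : X)).support : Set X)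

theorem mk_span_le {I : Type u} [Infinite I] [Nontrivial V] (hV : #V ≤ #I) (T : Set X) (hT : #T ≤ #I) :
    #(Submodule.span V T) ≤ #I := by
  have h0 : ℵ₀ ≤ #I := Cardinal.aleph0_le_mk I
  have h1 : Submodule.span V T = LinearMap.range (Finsupp.linearCombination V ((↑) : T → X)) := by
    rw [Finsupp.range_linearCombination, Subtype.range_coe]
  have h2 : #(Submodule.span V T) ≤ #(T →₀ V) := by
    rw [h1]
    exact Cardinal.mk_le_of_surjective (LinearMap.surjective_rangeRestrict _)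
  refine h2.trans ?_
  have h3 : #(T →₀ V) ≤ #(I →₀ V) := by
    obtain ⟨f⟩ := hT
    exact Cardinal.mk_le_of_injective (Finsupp.embDomain_injective f)
  refine h3.trans ?_
  rw [Cardinal.mk_finsupp_of_infinite]
  exact max_le le_rfl hV

theorem mk_nx_le {I : Type u} [Infinite I] [Nontrivial V] (hV : #V ≤ #I) (s : I → X →ₗ[V] (X →₀ V)) (T : Set X)
    (hT : #T ≤ #I) : #(nx s T) ≤ #I := by
  have h0 : ℵ₀ ≤ #I := Cardinal.aleph0_le_mk I
  have h1 := mk_span_le hV T hT
  unfold nx
  refine (Cardinal.mk_union_le _ _).trans ?_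
  refine Cardinal.add_le_of_le h0 h1 ?_
  refine (Cardinal.mk_iUnion_le _).trans ?_
  have h2 : #((Submodule.span V T) × I) ≤ #I := by
    rw [Cardinal.mk_prod, Cardinal.lift_id, Cardinal.lift_id]
    exact Cardinal.mul_le_of_le h0 h1 le_rfl
  refine Cardinal.mul_le_of_le h0 h2 ?_
  refine ciSup_le' fun z => ?_
  refine le_trans ?_ h0
  exact (Cardinal.lt_aleph0_of_finite _).le

/-- small closed submodules -/
theorem small {I : Type u} [Infinite I] [Nontrivial V] (hV : #V ≤ #I) (s : I → X →ₗ[V] (X →₀ V)) (x₀ : X) :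
    ∃ Z : Submodule V X, x₀ ∈ Z ∧ Cls s Z ∧ #Z ≤ #I := by
  have h0 : ℵ₀ ≤ #I := Cardinal.aleph0_le_mk I
  let T : ℕ → Set X := fun m => (nx s)^[m] {x₀}
  have hT0 : T 0 = {x₀} := rfl
  have hTs : ∀ m, T (m + 1) = nx s (T m) := fun m => Function.iterate_succ_apply' (nx s) m {x₀}
  have hsp : ∀ m, (Submodule.span V (T m) : Set X) ⊆ T (m + 1) := by
    intro m
    rw [hTs]
    exact Set.subset_union_left
  have hmono1 : ∀ m, T m ⊆ T (m + 1) := fun m => Submodule.subset_span.trans (hsp m)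
  have hmono : Monotone T := monotone_nat_of_le_succ hmono1
  have hcard : ∀ m, #(T m) ≤ #I := by
    intro m
    induction m with
    | zero =>
      rw [hT0, Cardinal.mk_singleton]
      exact Cardinal.one_le_aleph0.trans h0
    | succ m ih =>
      rw [hTs]
      exact mk_nx_le hV s _ ih
  let Z : Submodule V X :=
    { carrier := ⋃ m, T m
      zero_mem' := Set.mem_iUnion.2 ⟨1, hsp 0 (Submodule.zero_mem _)⟩
      add_mem' := by
        intro a b ha hb
        obtain ⟨m, hm⟩ := Set.mem_iUnion.1 ha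
        obtain ⟨l, hl⟩ := Set.mem_iUnion.1 hb
        refine Set.mem_iUnion.2 ⟨max m l + 1, hsp _ ?_⟩
        exact Submodule.add_mem _ (Submodule.subset_span (hmono (le_max_left m l) hm))
          (Submodule.subset_span (hmono (le_max_right m l) hl))
      smul_mem' := by
        intro c a ha
        obtain ⟨m, hm⟩ := Set.mem_iUnion.1 ha
        exact Set.mem_iUnion.2 ⟨m + 1, hsp _ (Submodule.smul_mem _ c (Submodule.subset_span hm))⟩ }
  have hZ : ∀ x, x ∈ Z ↔ x ∈ ⋃ m, T m := fun x => Iff.rfl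
  refine ⟨Z, (hZ x₀).2 (Set.mem_iUnion.2 ⟨0, rfl⟩), ?_, ?_⟩
  · intro i x hx y hy
    obtain ⟨m, hm⟩ := Set.mem_iUnion.1 ((hZ x).1 hx)
    refine (hZ y).2 (Set.mem_iUnion.2 ⟨m + 1, ?_⟩)
    rw [hTs]
    right
    exact Set.mem_iUnion.2 ⟨(⟨x, Submodule.subset_span hm⟩, i), hy⟩
  · have h1 : #(⋃ m, T m) ≤ #I := by
      have h2 := Cardinal.mk_iUnion_le_sum_mk_lift (f := T)
      rw [Cardinal.lift_uzero] at h2
      refine h2.trans ?_
      refine (Cardinal.sum_le_lift_mk_mul_iSup_lift _).trans ?_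
      rw [Cardinal.mk_nat, Cardinal.lift_aleph0]
      refine Cardinal.mul_le_of_le h0 h0 ?_
      refine ciSup_le' fun m => ?_
      rw [Cardinal.lift_uzero]
      exact hcard m
    exact h1

end

/-- job RED of project RD of helper32 -/
theorem red : S_RED.{u} := by
  classical
  intro I V _ _ S hV N _ _ hsmall X _ _ hEP E _ _ i p hi hp hex
  have hnt : Nontrivial V := ⟨1, 0, S.one_ne⟩
  choose s hs using hEP
  have hpi : ∀ n, p (i n) = 0 := fun n => by
    have : i n ∈ LinearMap.ker p := hex ▸ LinearMap.mem_range_self i n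
    exact this
  let A : Set (X →ₗ.[V] E) := {σ | Cls s σ.domain ∧ ∀ x : σ.domain, p (σ x) = x}
  have hbot : (⊥ : X →ₗ.[V] E) ∈ A := by
    refine ⟨?_, ?_⟩
    · intro j x hx y hy
      have h1 : x = 0 := (Submodule.mem_bot V).1 hx
      rw [h1, map_zero] at hy
      simp at hy
    · intro x
      have h1 : (x : X) = 0 := (Submodule.mem_bot V).1 x.2
      have h2 : (⊥ : X →ₗ.[V] E) x = 0 := rfl
      rw [h2, h1, map_zero]
  obtain ⟨σ, -, hmax⟩ := zorn_le_nonempty₀ A (by
    intro c hcA hc y hy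
    have hdir : DirectedOn (· ≤ ·) c := hc.directedOn
    refine ⟨LinearPMap.sSup c hdir, ⟨?_, ?_⟩, fun z hz => LinearPMap.le_sSup hdir hz⟩
    · intro j x hx y' hy'
      rw [LinearPMap.domain_sSup] at hx ⊢
      have hne : (LinearPMap.domain '' c).Nonempty := ⟨_, y, hy, rfl⟩
      have hdir' : DirectedOn (· ≤ ·) (LinearPMap.domain '' c) :=
        directedOn_image.2 (hdir.mono fun {a b} h => LinearPMap.domain_mono.monotone h)
      obtain ⟨D, ⟨f, hf, rfl⟩, hxD⟩ := (Submodule.mem_sSup_of_directed hne hdir').1 hx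
      exact (Submodule.mem_sSup_of_directed hne hdir').2 ⟨_, ⟨f, hf, rfl⟩, (hcA hf).1 j x hxD y' hy'⟩
    · rintro ⟨x, hx⟩
      have hx' := hx
      rw [LinearPMap.domain_sSup] at hx'
      have hne : (LinearPMap.domain '' c).Nonempty := ⟨_, y, hy, rfl⟩
      have hdir' : DirectedOn (· ≤ ·) (LinearPMap.domain '' c) :=
        directedOn_image.2 (hdir.mono fun {a b} h => LinearPMap.domain_mono.monotone h)
      obtain ⟨D, ⟨f, hf, rfl⟩, hxD⟩ := (Submodule.mem_sSup_of_directed hne hdir').1 hx'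
      have h1 := (LinearPMap.le_sSup hdir hf).2 (x := ⟨x, hxD⟩) (y := ⟨x, hx⟩) rfl
      rw [← h1]
      exact (hcA hf).2 ⟨x, hxD⟩) ⊥ hbot
  have hσA : σ ∈ A := hmax.1
  -- the domain is everything
  have htop : ∀ x₀ : X, x₀ ∈ σ.domain := by
    by_contra hcon
    push Not at hcon
    obtain ⟨x₀, hx₀⟩ := hcon
    obtain ⟨Z, hZ0, hZc, hZcard⟩ := small hV s x₀
    have hEPq : ∀ j, EP (S.e j) (Z ⧸ σ.domain.submoduleOf Z) := fun j =>
      ep_quot (S.e j) (s j) (hs j) σ.domain Z (hσA.1 j) (hZc j)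
    have hqc : #(Z ⧸ σ.domain.submoduleOf Z) ≤ #I :=
      (Cardinal.mk_le_of_surjective (Submodule.Quotient.mk_surjective _)).trans hZcard
    have hspl := hsmall (Z ⧸ σ.domain.submoduleOf Z) hqc hEPq
    obtain ⟨τ, hτ1, hτ2⟩ := ext_step i p hi hp hex σ.domain Z σ.toFun (fun d => hσA.2 d) hspl
    let τ' : X →ₗ.[V] E := ⟨Z, τ⟩
    have hcompat : ∀ (x : σ.domain) (y : τ'.domain), (x : X) = y → σ x = τ' y := by
      intro x y hxy
      have h1 : ((y : Z) : X) ∈ σ.domain := hxy ▸ x.2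
      have h2 := hτ2 y h1
      have h3 : τ' y = τ y := rfl
      rw [h3, h2]
      have h4 : (⟨((y : Z) : X), h1⟩ : σ.domain) = x := Subtype.ext hxy.symm
      rw [h4]
      rfl
    have hmem : σ.sup τ' hcompat ∈ A := by
      refine ⟨?_, ?_⟩
      · rw [LinearPMap.domain_sup]
        exact cls_sup hσA.1 hZc
      · rintro ⟨x, hx⟩
        have hx' := hx
        rw [LinearPMap.domain_sup] at hx'
        obtain ⟨d, hd, z, hz, hdz⟩ := Submodule.mem_sup.1 hx'
        have h1 := LinearPMap.sup_apply hcompat ⟨d, hd⟩ ⟨z, hz⟩ ⟨x, hx⟩ hdz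
        refine (congrArg p h1).trans ?_
        have h2 : p (τ' ⟨z, hz⟩) = z := hτ1 ⟨z, hz⟩
        rw [map_add, hσA.2, h2]
        exact hdz
    have hle : σ.sup τ' hcompat ≤ σ := hmax.2 hmem (LinearPMap.left_le_sup σ τ' hcompat)
    apply hx₀
    apply hle.1
    rw [LinearPMap.domain_sup]
    exact (le_sup_right : Z ≤ σ.domain ⊔ Z) hZ0
  -- the section and the retraction
  let t : X →ₗ[V] E := σ.toFun.comp (LinearMap.codRestrict σ.domain LinearMap.id fun x => htop x)
  have ht : ∀ x, p (t x) = x := fun x => hσA.2 ⟨x, htop x⟩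
  have hker : ∀ w : E, w - t (p w) ∈ LinearMap.range i := by
    intro w
    rw [hex, LinearMap.mem_ker, map_sub, ht, sub_self]
  let u : E →ₗ[V] LinearMap.range i := LinearMap.codRestrict (LinearMap.range i) (LinearMap.id - t.comp p) hker
  refine ⟨(LinearEquiv.ofInjective i hi).symm.toLinearMap.comp u, fun n => ?_⟩
  rw [LinearMap.comp_apply, LinearEquiv.coe_toLinearMap, LinearEquiv.symm_apply_eq]
  apply Subtype.ext
  show i n - t (p (i n)) = i n
  rw [hpi, map_zero, sub_zero]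

end Q150.RD
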